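import Mathlib
import Pool.Agent.Lib.MP_524519_ag.DU5.AB.Iface

/-! DU5, chapter AB, module VMS. -/

set_option autoImplicit false

namespace Pool.Agent.DU5.AB

open MvPowerSeries Pool.Agent.DU5

/-- VMS: the coordinates are divisible by `X ^ vm x`. -/
theorem vms : VMSStatement := by
  intro K _ x i
  rw [PowerSeries.X_pow_dvd_iff]
  intro m hm
  by_contra h
  exact Nat.notMem_of_lt_sInf hm ⟨i, h⟩

end Pool.Agent.DU5.AB
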